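import Pool.Agent.Y97.FD.Stm3
import Pool.Agent.Y97.FD.Grp

/-!
# From a general form to a standard form (job FD-F of helper97)
-/

set_option linter.unusedSectionVars false

universe u v

open Finset Matrix Pool.Agent.W552 Pool.Agent.Y97.FD

namespace Pool.Agent.Y496.FD

section

variable {R : Type} [Fintype R] [DecidableEq R] {K : Type u} [Field K] [CharZero K] {F : Type v}
    [Field F] [CharZero F] {φ : K →+* F} {par : R → Bool} {G : Matrix R R K}
    {A : ∀ n : ℕ, ((Fin n → R) → K) → Prop} {M : Matrix R R F}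

lemma mapT_rel' {κ κ' : Type} (e : κ ≃ κ') (f : (κ → R) → K) :
    mapT φ (rel e f) = rel e (mapT φ f) := rfl

/-- the choice of the numbering does not matter -/
theorem AF_any (hA : ClosedN par G A) {κ : Type} {n : ℕ} (e : κ ≃ Fin n) {f : (κ → R) → F}
    (h : AF φ M A κ f) : ∃ g : (Fin n → R) → K, A n g ∧ rel e f = act M (mapT φ g) := by
  rcases h with rfl | ⟨n', e', g, hg, h⟩
  · refine ⟨0, (hA.sub n).zero, ?_⟩
    have : mapT φ (0 : (Fin n → R) → K) = 0 := by
      funext I
      simp [mapT]
    rw [this, act_zero, rel_zero]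
  · have hn : n' = n := by
      have := Fintype.card_congr (e'.symm.trans e)
      simpa using this
    subst hn
    refine ⟨rel (e'.symm.trans e) g, hA.perm _ hg, ?_⟩
    rw [mapT_rel', act_rel, ← h, rel_rel]
    congr 1
    ext s
    simp

theorem AF_mk {κ : Type} {n : ℕ} (e : κ ≃ Fin n) {f : (κ → R) → F} {g : (Fin n → R) → K}
    (hg : A n g) (h : rel e f = act M (mapT φ g)) : AF φ M A κ f := Or.inr ⟨n, e, g, hg, h⟩

/-- the numbering of the slots in a contraction -/
def slots {κ : Type} {n : ℕ} (e : κ ≃ Fin n) : κ ⊕ (Unit ⊕ Unit) ≃ Fin (n + 2) where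
  toFun := Sum.elim (fun k => (e k).succ.succ) (Sum.elim (fun _ => 0) (fun _ => Fin.succ 0))
  invFun := Fin.cases (Sum.inr (Sum.inl ())) (Fin.cases (Sum.inr (Sum.inr ()))
    (fun t => Sum.inl (e.symm t)))
  left_inv := by
    rintro (k | u | u)
    · simp
    · rfl
    · rfl
  right_inv := by
    intro t
    refine Fin.cases ?_ (fun t => Fin.cases ?_ (fun t => ?_) t) t
    · rfl
    · rfl
    · simp

theorem slots_symm_zero {κ : Type} {n : ℕ} (e : κ ≃ Fin n) :
    (slots e).symm 0 = Sum.inr (Sum.inl ()) := rfl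

theorem slots_symm_one {κ : Type} {n : ℕ} (e : κ ≃ Fin n) :
    (slots e).symm (Fin.succ 0) = Sum.inr (Sum.inr ()) := rfl

theorem slots_symm_succ {κ : Type} {n : ℕ} (e : κ ≃ Fin n) (t : Fin n) :
    (slots e).symm t.succ.succ = Sum.inl (e.symm t) := rfl

/-- two slots -/
def two : Unit ⊕ Unit ≃ Fin 2 where
  toFun := Sum.elim (fun _ => 0) (fun _ => 1)
  invFun := fun i => if i = 0 then Sum.inl () else Sum.inr ()
  left_inv := by
    rintro (u | u)
    · simp
    · simp
  right_inv := by
    intro i
    fin_cases i <;> simp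

theorem cupA_eq' {κ : Type} [Fintype κ] [DecidableEq κ] (S : Std R) :
    cupA S κ F = cupM (fun _ => S.C F) := rfl

theorem pc1' (hA : ClosedN par G A) (S : Std R) (hG : M.transpose * S.C F * M = G.map φ)
    {κ : Type} [Fintype κ] [DecidableEq κ] {f : (κ ⊕ (Unit ⊕ Unit) → R) → F}
    (hf : AF φ M A (κ ⊕ (Unit ⊕ Unit)) f) : AF φ M A κ (pc S f) := by
  set e : κ ≃ Fin (Fintype.card κ) := Fintype.equivFin κ with he
  obtain ⟨g, hg, h⟩ := AF_any hA (slots e) hf
  refine AF_mk e (hA.ctr hg) ?_
  have hf' : f = act M (rel (slots e).symm (mapT φ g)) := by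
    rw [act_rel, ← h, rel_symm_rel]
  have h1 : act M.transpose (cupA S Unit F) = cupM (fun _ : Unit => G.map φ) := by
    rw [cupA_eq', act_cupM]
    congr 1
    funext _
    rw [Matrix.transpose_transpose, hG]
  rw [pc, hf', pdot_act, h1, ← act_rel]
  congr 1
  funext I
  rw [rel_apply, pdot, sum_sumArrow, mapT_apply, map_sum]
  have hU : ∀ X : (Unit → R) → F, ∑ J, X J = ∑ i, X (fun _ => i) := by
    intro X
    exact (Fintype.sum_equiv (Equiv.funUnique Unit R).symm _ _ (fun i => rfl)).symm
  rw [hU]
  refine Finset.sum_congr rfl fun i _ => ?_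
  rw [hU, map_sum]
  refine Finset.sum_congr rfl fun j _ => ?_
  rw [rel_apply, mapT_apply, map_mul, mul_comm]
  congr 1
  · simp [cupM, Matrix.map_apply]
  · congr 2
    funext t
    refine Fin.cases ?_ (fun t => Fin.cases ?_ (fun t => ?_) t) t
    · rfl
    · rfl
    · rw [slots_symm_succ]
      simp

theorem tau_cast (S : Std R) (i : R) : (S.tau i : F) = if S.par i then -1 else 1 := by
  rw [Std.tau]
  split_ifs <;> simp

theorem cup1' (hA : ClosedN par G A) (S : Std R) {M' : Matrix R R F} (hpar : ∀ i, S.par i = par i)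
    (hMM : M * M' = 1) (hG : M.transpose * S.C F * M = G.map φ)
    (hM : ∀ i j, par i ≠ par j → M i j = 0) (c : Unit → Bool) :
    AF φ M A (Unit ⊕ Unit) (cupK S F c) := by
  obtain ⟨Cu, hCu, hA2⟩ := hA.cup (c ())
  refine AF_mk two hA2 ?_
  -- the matrix identity
  set X : Matrix R R F := M * Cu.map φ * M.transpose with hX
  set Ec : Matrix R R F := Matrix.diagonal (fun i => if par i = c () then 1 else 0) with hEc
  have h1 : (G.map φ).transpose * Cu.map φ * G.map φ = Ec * G.map φ := by
    have h2 : G.transpose * Cu * G = Matrix.of fun k l => if par k = c () then G k l else 0 := by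
      ext k l
      exact hCu k l
    have h3 := congrArg (fun N : Matrix R R K => N.map φ) h2
    simp only [Matrix.map_mul] at h3
    rw [← Matrix.transpose_map]
    rw [h3]
    ext k l
    rw [hEc, Matrix.diagonal_mul, Matrix.map_apply, Matrix.of_apply, Matrix.map_apply]
    split_ifs <;> simp
  have hcomm : Ec * M.transpose = M.transpose * Ec := by
    ext i j
    rw [hEc, Matrix.diagonal_mul, Matrix.mul_diagonal, Matrix.transpose_apply]
    by_cases h : par i = par j
    · rw [h]
      ring
    · rw [hM j i (fun h' => h h'.symm)]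
      ring
  have hMM' : M' * M = 1 := mul_eq_one_comm.1 hMM
  have hMt : M'.transpose * M.transpose = 1 := by
    rw [← Matrix.transpose_mul, hMM, Matrix.transpose_one]
  have h4 : (S.C F).transpose * X * S.C F = Ec * S.C F := by
    rw [← hG] at h1
    have h5 := congrArg (fun N : Matrix R R F => M'.transpose * N * M') h1
    simp only [Matrix.transpose_mul, Matrix.transpose_transpose] at h5
    calc (S.C F).transpose * X * S.C F
        = (M'.transpose * M.transpose) * (S.C F).transpose * X * S.C F * (M * M') := by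
          rw [hMt, hMM, Matrix.one_mul, Matrix.mul_one]
      _ = M'.transpose * (M.transpose * ((S.C F).transpose * M) * Cu.map φ *
          (M.transpose * S.C F * M)) * M' := by
          rw [hX]
          simp only [Matrix.mul_assoc]
      _ = M'.transpose * (Ec * (M.transpose * S.C F * M)) * M' := h5
      _ = M'.transpose * (Ec * M.transpose) * S.C F * (M * M') := by simp only [Matrix.mul_assoc]
      _ = (M'.transpose * M.transpose) * Ec * S.C F := by
          rw [hcomm, hMM, Matrix.mul_one]
          simp only [Matrix.mul_assoc]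
      _ = Ec * S.C F := by rw [hMt, Matrix.one_mul]
  have h6 : X = S.Cc F (c ()) := by
    have h7 := congrArg (fun N : Matrix R R F => S.C F * N * (S.C F).transpose) h4
    change S.C F * ((S.C F).transpose * X * S.C F) * (S.C F).transpose =
      S.C F * (Ec * S.C F) * (S.C F).transpose at h7
    have h8 : S.C F * ((S.C F).transpose * X * S.C F) * (S.C F).transpose = X := by
      calc _ = (S.C F * (S.C F).transpose) * X * (S.C F * (S.C F).transpose) := by
            simp only [Matrix.mul_assoc]
        _ = X := by rw [S.C_mul_transpose, Matrix.one_mul, Matrix.mul_one]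
    have h9 : S.C F * (Ec * S.C F) * (S.C F).transpose = S.C F * Ec := by
      calc _ = S.C F * Ec * (S.C F * (S.C F).transpose) := by simp only [Matrix.mul_assoc]
        _ = _ := by rw [S.C_mul_transpose, Matrix.mul_one]
    rw [h8, h9] at h7
    rw [h7]
    ext i j
    rw [hEc, Matrix.mul_diagonal, Std.C_apply, Std.Cc, Matrix.of_apply]
    by_cases h : j = S.inv i
    · subst h
      rw [if_pos rfl, ← hpar, S.par_inv]
      by_cases h' : S.par i = c ()
      · simp [h']
      · simp [h']
    · simp [h]
  have h10 : cupK S F c = act M (cupM (fun _ : Unit => Cu.map φ)) := by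
    rw [cupK_eq_cupM, act_cupM]
    congr 1
    funext s
    rw [show c s = c () from rfl, ← h6]
  rw [h10, ← act_rel]
  congr 1
  funext I
  simp [rel_apply, cupM, mapT_apply, two]

theorem even' (hA : ClosedN par G A) (S : Std R) (hpar : ∀ i, S.par i = par i)
    (hM : ∀ i j, par i ≠ par j → M i j = 0) {κ : Type} [Fintype κ] {f : (κ → R) → F}
    (hf : AF φ M A κ f) : Evn S f := by
  classical
  rcases hf with rfl | ⟨n, e, g, hg, h⟩
  · exact Evn.zero S
  · have h1 : Evn S (act M (mapT φ g)) := by
      intro I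
      rw [act_apply, Finset.mul_sum]
      refine Finset.sum_congr rfl fun J _ => ?_
      have h2 := congrArg φ (hA.even hg J)
      rw [map_mul, map_prod] at h2
      have h3 : ∀ s, φ (if par (J s) then -1 else 1) = (S.tau (J s) : F) := by
        intro s
        rw [tau_cast, hpar]
        split_ifs <;> simp
      simp only [h3] at h2
      have h4 : (∏ s, (S.tau (I s) : F)) * ∏ s, M (I s) (J s) =
          (∏ s, M (I s) (J s)) * ∏ s, (S.tau (J s) : F) := by
        rw [← Finset.prod_mul_distrib, ← Finset.prod_mul_distrib]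
        refine Finset.prod_congr rfl fun s _ => ?_
        by_cases h5 : par (I s) = par (J s)
        · rw [tau_cast, tau_cast, hpar, hpar, h5]
          ring
        · rw [hM _ _ h5]
          ring
      rw [← mul_assoc, h4, mul_assoc, mapT_apply, h2]
    have h2 := Evn.rel S e.symm (h ▸ h1)
    rwa [rel_symm_rel] at h2

end

theorem jobF : JobF.{u, v} := by
  intro R _ _ K _ _ F _ _ φ par G A hA S M M' hpar hMM hG hM
  refine ⟨?_, ?_, ?_, ?_, ?_, ?_, ?_, ?_⟩
  · -- sub
    intro κ
    refine ⟨Or.inl rfl, ?_, ?_⟩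
    · intro x y hx hy
      rcases hx with rfl | ⟨n, e, g, hg, h⟩
      · rwa [zero_add]
      · obtain ⟨g', hg', h'⟩ := AF_any hA e hy
        refine AF_mk e ((hA.sub n).add hg hg') ?_
        rw [rel_add, h, h', ← act_add]
        congr 1
        funext I
        simp [mapT_apply]
    · intro q x hx
      rcases hx with rfl | ⟨n, e, g, hg, h⟩
      · rw [smul_zero]
        exact Or.inl rfl
      · refine AF_mk e ((hA.sub n).smul q hg) ?_
        rw [rel_smul, h, ← act_smul]
        congr 1
        funext I
        simp [mapT_apply]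
  · -- rel
    intro κ κ' e f hf
    rcases hf with rfl | ⟨n, e₀, g, hg, h⟩
    · exact Or.inl (rel_zero e)
    · refine AF_mk (e.symm.trans e₀) hg ?_
      rw [← h, rel_rel]
      congr 1
      ext s
      simp
  · -- tmul
    intro κ κ' f f' hf hf'
    rcases hf with rfl | ⟨n, e, g, hg, h⟩
    · exact Or.inl (zero_tmul f')
    rcases hf' with rfl | ⟨m, e', g', hg', h'⟩
    · exact Or.inl (tmul_zero f)
    obtain ⟨ε, hε⟩ := hA.tmul hg hg'
    refine AF_mk ((Equiv.sumCongr e e').trans ε) hε ?_
    rw [← rel_rel, ← tmul_rel, h, h', ← act_tmul, mapT_rel', act_rel, mapT_tmul]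
  · intro κ _ _ f hf
    exact pc1' hA S hG hf
  · intro c
    exact cup1' hA S hpar hMM hG hM c
  · -- rat
    intro f hf
    obtain ⟨g, hg, h⟩ := AF_any hA (Equiv.equivOfIsEmpty Empty (Fin 0)) hf
    obtain ⟨q, rfl⟩ := hA.rat hg
    refine ⟨q, ?_⟩
    funext I
    have h1 := congrFun h (fun s => Fin.elim0 s)
    rw [rel_apply, act_apply] at h1
    have h2 : (fun s => (fun s : Fin 0 => (Fin.elim0 s : R)) ((Equiv.equivOfIsEmpty Empty (Fin 0)) s)) = I := by
      funext s
      exact s.elim
    rw [h2] at h1
    rw [h1]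
    simp [mapT_apply]
  · -- one
    refine AF_mk (Equiv.equivOfIsEmpty Empty (Fin 0)) hA.one ?_
    funext I
    rw [rel_apply, act_apply]
    simp [mapT_apply]
  · intro κ _ f hf
    exact even' hA S hpar hM hf

end Pool.Agent.Y496.FD
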